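import Mathlib

/-!
The accelerated Collatz map over the power series ring in characteristic two, as a relation.
-/

namespace Pool.Agent.N158.PC

/-- Formal power series over the field with two elements. -/
abbrev A := PowerSeries (ZMod 2)

theorem charA : CharP A 2 :=
  charP_of_injective_algebraMap (R := ZMod 2) (A := A) (algebraMap (ZMod 2) A).injective 2

/-- The variable. -/
noncomputable def x : A := PowerSeries.X

/-- The series `1 + x`. -/
noncomputable def y : A := 1 + x

/-- `Reach f N a g`: starting from `f`, after `N` steps of the accelerated map
(`x f' ↦ f'`, and `f ↦ ((1 + x) f + 1) / x` for `f` with constant term one), of which exactly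
`a` are of the second kind, one arrives at `g`. -/
inductive Reach : A → ℕ → ℕ → A → Prop
  | refl (f : A) : Reach f 0 0 f
  | zero {f g : A} {N a : ℕ} (h : Reach f N a g) : Reach (x * f) (N + 1) a g
  | one {f f' g : A} {N a : ℕ} (e : y * f + 1 = x * f') (h : Reach f' N a g) :
      Reach f (N + 1) (a + 1) g

theorem two_eq : (2 : A) = 0 := by
  have := charA
  exact CharTwo.two_eq_zero

theorem add_self (f : A) : f + f = 0 := by
  have := charA
  exact CharTwo.add_self_eq_zero f

theorem x_ne : x ≠ 0 := PowerSeries.X_ne_zero

theorem Reach.trans {f g h : A} {N M a b : ℕ} (h1 : Reach f N a g) (h2 : Reach g M b h) :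
    Reach f (N + M) (a + b) h := by
  induction h1 with
  | refl f => simpa using h2
  | zero _ ih =>
    have := Reach.zero (ih h2)
    convert this using 1
    omega
  | one e _ ih =>
    have := Reach.one e (ih h2)
    convert this using 1 <;> omega

/-- Perturbation: adding `x ^ N * δ` adds `y ^ a * δ` to the result. -/
theorem Reach.pert {f g : A} {N a : ℕ} (h : Reach f N a g) (δ : A) :
    Reach (f + x ^ N * δ) N a (g + y ^ a * δ) := by
  induction h generalizing δ with
  | refl f => simpa using Reach.refl (f + δ)
  | @zero f g N a _ ih =>
    have := Reach.zero (ih δ)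
    convert this using 1
    ring
  | @one f f' g N a e _ ih =>
    have h1 := ih (y * δ)
    have h2 : y * (f + x ^ (N + 1) * δ) + 1 = x * (f' + x ^ N * (y * δ)) := by
      linear_combination e
    have := Reach.one h2 h1
    convert this using 1
    ring

theorem Reach.congr {f f' g g' : A} {N N' a a' : ℕ} (h : Reach f N a g) (hf : f = f')
    (hN : N = N') (ha : a = a') (hg : g = g') : Reach f' N' a' g' := by
  subst hf hN ha hg; exact h

theorem reach_one (N : ℕ) : Reach 1 N N 1 := by
  induction N with
  | zero => exact Reach.refl 1
  | succ N ih =>
    refine Reach.one ?_ ih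
    unfold y
    linear_combination two_eq

theorem reach_zero (N : ℕ) : Reach 0 N 0 0 := by
  induction N with
  | zero => exact Reach.refl 0
  | succ N ih => simpa using Reach.zero ih

theorem reach_pow (j : ℕ) (f : A) : Reach (x ^ j * f) j 0 f := by
  induction j with
  | zero => simpa using Reach.refl f
  | succ j ih =>
    have := Reach.zero ih
    convert this using 1
    ring

/-- `1 + x ^ j * h` goes to `1 + y ^ j * h` in `j` steps. -/
theorem reach_one_add (j : ℕ) (h : A) : Reach (1 + x ^ j * h) j j (1 + y ^ j * h) :=
  (reach_one j).pert h

end Pool.Agent.N158.PC
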