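import Pool.Agent.N158.PC.Chain

/-!
The trajectory: double steps, phases and the cascade.
-/

namespace Pool.Agent.N158.PC

open Polynomial

section
variable {R : Type*} [CommRing R] (hc : CharP R 2)
include hc

/-- `W` for `k = Q`. -/
theorem id_D0 (X XQ UQ : R) (h : UQ = 1 + X * XQ) : (1 + X) * UQ + 1 = X * (1 + XQ * (1 + X)) := by
  subst h
  ring_nf
  reduce_mod_char!

/-- `X W = U ^ (Q - q + 1) + 1 = X (1 + X ^ (q-1) Ui ^ (q - 1) + X ^ (Q-1) Ui ^ (q-1))`.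
`Xq = X ^ (q-1)`, `XQ = X ^ (Q-1)`, `Uq = U ^ (-(q-1))`, `Uiq = U ^ (-q)`. -/
theorem id_E0 (X Xq XQ UQ Uq Uiq : R) (h : UQ = 1 + X * XQ) (hq : Uiq * (1 + X * Xq) = 1)
    (hUq : Uq = (1 + X) * Uiq) :
    Uq * UQ + 1 = X * (1 + Xq * Uq + XQ * Uq) := by
  subst h
  subst hUq
  linear_combination (norm := (ring_nf; reduce_mod_char!)) (1 + X) * hq

end

theorem hUi (v n : ℕ) (hv : y ^ v = 1 + x ^ v) : (1 + x ^ v) ^ n * (yi ^ v) ^ n = 1 := by
  rw [← hv, ← mul_pow, y_pow_yi, one_pow]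

theorem U_pow (v c : ℕ) : (1 + x ^ v) ^ (2 ^ c) = 1 + (x ^ v) ^ (2 ^ c) := by
  have := charA
  have h : (1 + x ^ v : A) ^ (2 ^ c) = 1 ^ (2 ^ c) + (x ^ v) ^ (2 ^ c) :=
    add_pow_char_pow (1 : A) (x ^ v) 2 c
  rw [one_pow] at h
  exact h

theorem xv_ne (v : ℕ) : x ^ v ≠ 0 := pow_ne_zero _ x_ne

/-- `Y Q = H1 (Q-1)`. -/
theorem Y_top (v b : ℕ) : Y v (2 ^ b) = H1 v (2 ^ b - 1) := by
  obtain ⟨Q, hQ⟩ : ∃ Q, 2 ^ b = Q + 1 := ⟨2 ^ b - 1, by have := Nat.two_pow_pos b; omega⟩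
  have hU := U_pow v b
  have hy := y_pow b
  have hW' : W v (2 ^ b) = 1 + (x ^ v) ^ Q * (1 + x ^ v) := by
    apply mul_left_cancel₀ (xv_ne v)
    rw [hW, pow_succ, mul_comm, ← id_D0 charA (x ^ v) ((x ^ v) ^ Q) ((1 + x ^ v) ^ (2 ^ b))]
    rw [hU, hQ, pow_succ]
    ring
  unfold Y H1
  rw [hW', pow_succ y, hy, hQ]
  simp only [Nat.add_sub_cancel]
  have hc := charA
  unfold y
  ring_nf
  reduce_mod_char!

/-- regular double step -/
theorem regular {v d : ℕ} (hv : y ^ v = 1 + x ^ v) (hd : 1 ≤ d) (hdv : d ≤ v) (G : A)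
    (hA : Reach G v (v - d) 1) (hB : Reach (1 + yi ^ d * (x * G)) v (d - 1) 0) :
    Reach (G * Di v) (2 * v) (v - 1) (x * G * Di v) := by
  have h1 := hA.pert (x * G * Di v)
  rw [y_pow_sub hv hdv] at h1
  have h2 := hB.pert (yi ^ d * x * (1 + x) * G * Di v)
  refine ((h1.congr (g' := 1 + yi ^ d * (x * G) + x ^ v * (yi ^ d * x * (1 + x) * G * Di v))
    (id_R1 charA _ _ _ _ (hD v)) rfl rfl ?_).trans h2).congr rfl (by ring) (by omega) ?_
  · exact (id_R2 charA _ _ _ _ _ (hD v)).symm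
  · obtain ⟨e, rfl⟩ : ∃ e, d = e + 1 := ⟨d - 1, by omega⟩
    simp only [Nat.add_sub_cancel]
    have h3 := y_pow_yi e
    have h4 := hyi
    have e : y = 1 + x := rfl
    rw [← e]
    linear_combination (yi * x * y * G * Di v) * h3 + x * G * Di v * h4

/-- last double step of a phase. -/
theorem last {v d p' : ℕ} (hv : y ^ v = 1 + x ^ v) (hdv : d ≤ v) (G xk Up : A)
    (hU : Up * (1 + x ^ v * (x ^ v) ^ p') = 1)
    (hA : Reach G v (v - d) 1)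
    (hB : Reach (1 + yi ^ d * (x * G + xk * yi ^ p')) v (d + p') 0) :
    Reach (G * Di v + x ^ v * (yi ^ p' * xk * Up * Di v)) (2 * v) (v + p')
      (x * G * y ^ (p' + 1) * Di v + xk * Up * Di v * (y + (x ^ v) ^ p' + x * x ^ v * (x ^ v) ^ p')) := by
  have h1 := hA.pert (x * G * Di v + yi ^ p' * xk * Up * Di v)
  rw [y_pow_sub hv hdv] at h1
  have h2 := hB.pert (yi ^ d * (x * G * (1 + x) * Di v + yi ^ p' * xk * Up * Di v *
    ((1 + x) + (x ^ v) ^ p' + x * x ^ v * (x ^ v) ^ p')))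
  refine ((h1.congr (g' := (1 + yi ^ d * (x * G + xk * yi ^ p')) +
      x ^ v * (yi ^ d * (x * G * (1 + x) * Di v + yi ^ p' * xk * Up * Di v *
      ((1 + x) + (x ^ v) ^ p' + x * x ^ v * (x ^ v) ^ p'))))
    (id_L1 charA _ _ _ _ _ (hD v)) rfl rfl ?_).trans h2).congr rfl (by ring) (by omega) ?_
  · exact (id_L2 charA _ _ _ _ _ _ _ _ _ (hD v) hU).symm
  · have h3 := y_pow_yi d
    have h4 := y_pow_yi p'
    have e : y = 1 + x := rfl
    rw [← e]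
    linear_combination (y ^ p' * (x * G * y * Di v + yi ^ p' * xk * Up * Di v *
      (y + (x ^ v) ^ p' + x * x ^ v * (x ^ v) ^ p'))) * h3 +
      (xk * Up * Di v * (y + (x ^ v) ^ p' + x * x ^ v * (x ^ v) ^ p')) * h4

end Pool.Agent.N158.PC
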