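import Pool.Agent.N158.PC.Ident

/-!
The trajectory: linear steps.
-/

namespace Pool.Agent.N158.PC

open Polynomial

noncomputable def Di (v : ℕ) : A := (1 + x * x ^ v)⁻¹

noncomputable def yi : A := y⁻¹

theorem hD (v : ℕ) : (1 + x * x ^ v) * Di v = 1 :=
  PowerSeries.mul_inv_cancel _ (by simp [x])

theorem hyi : y * yi = 1 :=
  PowerSeries.mul_inv_cancel _ (by simp [y, x])

theorem hyi' : (1 + x) * yi = 1 := hyi

theorem y_pow (a : ℕ) : y ^ (2 ^ a) = 1 + x ^ (2 ^ a) := by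
  have := charA
  have h : (1 + x : A) ^ (2 ^ a) = 1 ^ (2 ^ a) + x ^ (2 ^ a) := add_pow_char_pow (1 : A) x 2 a
  rw [one_pow] at h
  exact h

theorem y_pow_yi (n : ℕ) : y ^ n * yi ^ n = 1 := by
  rw [← mul_pow, hyi, one_pow]

section
variable {v : ℕ} (hv : y ^ v = 1 + x ^ v)
include hv

theorem y_pow_sub {d : ℕ} (hd : d ≤ v) : y ^ (v - d) = yi ^ d * (1 + x ^ v) := by
  have h1 : y ^ v = y ^ (v - d) * y ^ d := by rw [← pow_add]; congr 1; omega
  have h2 := y_pow_yi d
  rw [← hv, h1]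
  linear_combination (-y ^ (v - d)) * h2

theorem A1 (δ : A) : Reach (Di v + x ^ v * δ) v v (y * Di v + (1 + x ^ v) * δ) := by
  have h := (reach_one v).pert (x * Di v + δ)
  rw [hv, id_A1 charA _ _ _ _ (hD v), id_A2 charA _ _ _ _ (hD v)] at h
  exact h

omit hv in
theorem reach_y (h2 : 2 ≤ v) : Reach y v (v - 1) 1 := by
  have h1 : Reach y (v - 2 + 1 + 1) (v - 2 + 1) 1 := by
    refine Reach.one (f' := x * 1) ?_ (Reach.zero (reach_one (v - 2)))
    unfold y
    linear_combination (1 + x) * two_eq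
  exact h1.congr rfl (by omega) (by omega) rfl

theorem B1 (h2 : 2 ≤ v) (δ : A) :
    Reach (y * Di v + x ^ v * δ) v (v - 1) (y * Di v + yi * (1 + x ^ v) * δ) := by
  have h := (reach_y h2).pert (x * y * Di v + δ)
  have h1 : y ^ (v - 1) = yi * (1 + x ^ v) := by
    have := y_pow_sub hv (d := 1) (by omega)
    simpa using this
  rw [h1] at h
  refine h.congr ?_ rfl rfl ?_
  · exact id_B1 charA _ _ _ _ (hD v)
  · exact id_B2 charA _ _ _ _ _ (hD v) hyi'

theorem B_iter (h2 : 2 ≤ v) (j : ℕ) (δ : A) :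
    Reach (y * Di v + (x ^ v) ^ j * δ) (j * v) (j * (v - 1))
      (y * Di v + (yi * (1 + x ^ v)) ^ j * δ) := by
  induction j generalizing δ with
  | zero => simpa using Reach.refl (y * Di v + δ)
  | succ j ih =>
    have h1 := B1 hv h2 ((x ^ v) ^ j * δ)
    have h3 := ih (yi * (1 + x ^ v) * δ)
    have h4 : y * Di v + yi * (1 + x ^ v) * ((x ^ v) ^ j * δ) =
        y * Di v + (x ^ v) ^ j * (yi * (1 + x ^ v) * δ) := by ring
    rw [h4] at h1
    refine (h1.trans h3).congr ?_ ?_ ?_ ?_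
    · ring
    · ring
    · ring
    · ring

end

/-- `(1 + (x X)^(k+1)) / (1 + x X)`. -/
noncomputable def H (v k : ℕ) : A := (1 + (x * x ^ v) ^ (k + 1)) * Di v

noncomputable def H1 (v k : ℕ) : A :=
  y * Di v + (1 + x ^ v) * (x * (x * x ^ v) ^ k * Di v)

noncomputable def W (v k : ℕ) : A := ∑ i ∈ Finset.range (k + 1), (1 + x ^ v) ^ i

noncomputable def Y (v k : ℕ) : A :=
  (x ^ (k + 1) + y ^ (k + 1) + x ^ k * W v k) * Di v

theorem hW (v k : ℕ) : x ^ v * W v k = (1 + x ^ v) ^ (k + 1) + 1 := by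
  have h := mul_geom_sum (1 + x ^ v : A) (k + 1)
  unfold W
  linear_combination h - two_eq

section
variable {v : ℕ} (hv : y ^ v = 1 + x ^ v)
include hv

theorem step_H (k : ℕ) : Reach (H v k) v v (H1 v k) := by
  refine (A1 hv (x * (x * x ^ v) ^ k * Di v)).congr ?_ rfl rfl rfl
  unfold H
  ring

theorem step_C (hRAT : T_RAT) (h2 : 2 ≤ v) (k : ℕ) (hk : 1 ≤ k) (hkv : k * (k + 3) / 2 ≤ v) :
    Reach (H1 v k) ((k + 1) * v) (k * v) (x * Y v k) := by
  have h1 := B_iter hv h2 k ((1 + x ^ v) * (x * x ^ k * Di v))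
  -- second part
  have hg : Reach (y + x ^ (k + 1) * yi ^ k) v k 0 := by
    refine hRAT k hk ((1 + X) ^ (k + 1) + X ^ (k + 1)) ?_ ?_ _ ?_ v hkv
    · -- degree
      have e1 : ((1 + X : (ZMod 2)[X]) ^ (k + 1)).natDegree = k + 1 := by
        have : (1 + X : (ZMod 2)[X]) = X + C 1 := by rw [C_1, add_comm]
        rw [this, natDegree_pow, natDegree_X_add_C, mul_one]
      have m1 : ((1 + X : (ZMod 2)[X]) ^ (k + 1)).Monic := by
        have : (1 + X : (ZMod 2)[X]) = X + C 1 := by rw [C_1, add_comm]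
        rw [this]; exact (monic_X_add_C 1).pow _
      have m2 : ((X : (ZMod 2)[X]) ^ (k + 1)).Monic := monic_X_pow _
      have h3 : (1 + X : (ZMod 2)[X]) ^ (k + 1) + X ^ (k + 1) =
          (1 + X) ^ (k + 1) - X ^ (k + 1) := by
        rw [CharTwo.sub_eq_add]
      rw [h3]
      by_cases h0 : (1 + X : (ZMod 2)[X]) ^ (k + 1) - X ^ (k + 1) = 0
      · rw [h0]; simp
      · have h4 := degree_sub_lt_left (p := (1 + X : (ZMod 2)[X]) ^ (k + 1)) (q := X ^ (k + 1)) ?_
          m1.ne_zero ?_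
        · have h5 : ((1 + X : (ZMod 2)[X]) ^ (k + 1) - X ^ (k + 1)).natDegree < k + 1 := by
            have := (natDegree_lt_natDegree_iff h0).2 h4
            rwa [e1] at this
          omega
        · rw [degree_eq_natDegree m1.ne_zero, degree_eq_natDegree m2.ne_zero, e1,
            natDegree_X_pow]
        · rw [m1.leadingCoeff, m2.leadingCoeff]
    · -- eval
      have : (1 + 1 : ZMod 2) = 0 := by decide
      simp [this]
    · -- identity
      have h3 := y_pow_yi k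
      push_cast
      change y ^ k * (y + x ^ (k + 1) * yi ^ k) = y ^ (k + 1) + x ^ (k + 1)
      linear_combination x ^ (k + 1) * h3
  have h3 := hg.pert ((x * (1 + x) + x ^ (k + 1) * yi ^ k * (W v k + x)) * Di v)
  have h4 := id_C1 charA x (x ^ v) (Di v) (x ^ (k + 1)) (yi ^ k) ((1 + x ^ v) ^ (k + 1)) (W v k)
    (hD v) (hW v k)
  refine (h1.trans (h3.congr (f' := y * Di v + (yi * (1 + x ^ v)) ^ k *
    ((1 + x ^ v) * (x * x ^ k * Di v))) ?_ rfl rfl rfl)).congr ?_ ?_ ?_ ?_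
  · unfold y
    rw [h4, mul_pow]
    ring
  · unfold H1
    ring
  · ring
  · obtain ⟨w, rfl⟩ : ∃ w, v = w + 1 := ⟨v - 1, by omega⟩
    simp only [Nat.add_sub_cancel]
    ring
  · have h5 := y_pow_yi k
    unfold Y
    have e : y = 1 + x := rfl
    linear_combination (x ^ (k + 1) * (W v k + x) * Di v) * h5 - x * y ^ k * Di v * e

end

end Pool.Agent.N158.PC
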