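import Pool.Agent.N158.PC.Final
import Pool.Agent.N713.PC.POLY
import Pool.Agent.N690.PC.RAT
import Pool.Agent.N879.PC.BRIDGE
import Pool.Agent.N227.PC.Num

/-!
The whole trajectory and the exact stopping time.
-/

namespace Pool.Agent.N158.PC

open Polynomial

section
variable {v : ℕ} (hv : y ^ v = 1 + x ^ v) (hPOLY : T_POLY) (hRAT : T_RAT)
include hv hPOLY hRAT

/-- from `H1 (Q - q)` to `x^q H (Q - 2q)`. -/
theorem big0 (i kk b : ℕ) (hb : 2 ^ b = 2 * 2 ^ i + kk)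
    (h : i = 0 ∨ ∃ s, 1 ≤ s ∧ kk = 2 * 2 ^ i * s) (h2 : 2 ≤ v)
    (hN : (2 ^ i + kk) * (2 ^ i + kk + 3) / 2 ≤ v) :
    Reach (H1 v (2 ^ i + kk)) ((2 ^ b + 2 ^ i - 1) * v) ((2 ^ b - 1) * v)
      (x ^ (2 ^ i) * H v kk) := by
  have hpos := Nat.two_pow_pos i
  have h3 := step_C hv hRAT h2 (2 ^ i + kk) (by omega) hN
  have h4 := casc hv hPOLY hRAT i kk b hb h hN
  refine (h3.trans h4).congr rfl ?_ ?_ rfl
  · rw [← add_mul]; congr 1; omega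
  · rw [← add_mul]; congr 1; omega

/-- from `H (Q - q)` to `H (Q - 2q)`. -/
theorem big (i kk b : ℕ) (hb : 2 ^ b = 2 * 2 ^ i + kk)
    (h : i = 0 ∨ ∃ s, 1 ≤ s ∧ kk = 2 * 2 ^ i * s) (h2 : 2 ≤ v)
    (hN : (2 ^ i + kk) * (2 ^ i + kk + 3) / 2 ≤ v) :
    Reach (H v (2 ^ i + kk)) ((2 ^ b + 2 ^ i) * v + 2 ^ i) (2 ^ b * v) (H v kk) := by
  have hpos := Nat.two_pow_pos i
  have hposb := Nat.two_pow_pos b
  have h3 := (step_H hv (2 ^ i + kk)).trans (big0 hv hPOLY hRAT i kk b hb h h2 hN)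
  have h4 := h3.trans (reach_pow (2 ^ i) (H v kk))
  refine h4.congr rfl ?_ ?_ rfl
  · obtain ⟨r, hr⟩ : ∃ r, 2 ^ b + 2 ^ i = r + 1 := ⟨2 ^ b + 2 ^ i - 1, by omega⟩
    rw [hr]; simp only [Nat.add_sub_cancel]; ring
  · obtain ⟨r, hr⟩ : ∃ r, 2 ^ b = r + 1 := ⟨2 ^ b - 1, by omega⟩
    rw [hr]; simp only [Nat.add_sub_cancel]; ring

omit hPOLY in
theorem top0 (b : ℕ) (h2 : 2 ≤ v) (hN : 2 ^ b * (2 ^ b + 3) / 2 ≤ v) :
    Reach (H v (2 ^ b)) ((2 ^ b + 2) * v + 1) ((2 ^ b + 1) * v) (H1 v (2 ^ b - 1)) := by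
  have h1 := (step_H hv (2 ^ b)).trans (step_C hv hRAT h2 (2 ^ b) Nat.one_le_two_pow hN)
  rw [Y_top] at h1
  refine (h1.trans (Reach.zero (Reach.refl (H1 v (2 ^ b - 1))))).congr rfl ?_ ?_ rfl <;> ring

/-- from `H Q` to `H (Q-2)`. -/
theorem top (b : ℕ) (hb1 : 1 ≤ b) (h2 : 2 ≤ v) (hN : 2 ^ b * (2 ^ b + 3) / 2 ≤ v) :
    Reach (H v (2 ^ b)) ((2 * 2 ^ b + 2) * v + 2) (2 * 2 ^ b * v) (H v (2 ^ b - 2)) := by
  have hle : 2 ^ 1 ≤ 2 ^ b := Nat.pow_le_pow_right (by norm_num) hb1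
  have h1 := top0 hv hRAT b h2 hN
  have h3 := big0 hv hPOLY hRAT 0 (2 ^ b - 2) b (by omega) (Or.inl rfl) h2
    (tri_mono (by omega) hN)
  rw [show 2 ^ 0 + (2 ^ b - 2) = 2 ^ b - 1 by omega] at h3
  refine ((h1.trans h3).trans (reach_pow (2 ^ 0) (H v (2 ^ b - 2)))).congr rfl ?_ ?_ rfl
  · obtain ⟨r, hr⟩ : ∃ r, 2 ^ b = r + 1 := ⟨2 ^ b - 1, by omega⟩
    rw [hr, show r + 1 + 2 ^ 0 - 1 = r + 1 by omega]; ring
  · obtain ⟨r, hr⟩ : ∃ r, 2 ^ b = r + 1 := ⟨2 ^ b - 1, by omega⟩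
    rw [hr]; simp only [Nat.add_sub_cancel]; ring

/-- from `H (Q-2)` to `H (Q - 2^(i+1))`. -/
theorem mid (b i : ℕ) (hi : i + 2 ≤ b) (h2 : 2 ≤ v) (hN : 2 ^ b * (2 ^ b + 3) / 2 ≤ v) :
    Reach (H v (2 ^ b - 2)) ((2 ^ (i + 1) - 2) * (v + 1) + i * 2 ^ b * v) (i * 2 ^ b * v)
      (H v (2 ^ b - 2 ^ (i + 1))) := by
  induction i with
  | zero => exact (Reach.refl _).congr rfl (by simp) (by simp) rfl
  | succ i ih =>
    have h1 := ih (by omega)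
    have e0 : 2 ^ b = 2 ^ (b - (i + 2)) * 2 ^ (i + 2) := by rw [← pow_add]; congr 1; omega
    have e1 : 2 ^ (i + 2) = 2 * 2 ^ (i + 1) := by ring
    have e2 : 1 < 2 ^ (b - (i + 2)) := Nat.one_lt_two_pow (by omega)
    obtain ⟨s, hs⟩ : ∃ s, 2 ^ (b - (i + 2)) = s + 1 := ⟨2 ^ (b - (i + 2)) - 1, by omega⟩
    have e3 : 2 ^ b = 2 * 2 ^ (i + 1) + 2 * 2 ^ (i + 1) * s := by rw [e0, e1, hs]; ring
    have e4 : 2 ^ b - 2 ^ (i + 1) = 2 ^ (i + 1) + 2 * 2 ^ (i + 1) * s := by omega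
    have e5 : 2 ^ b - 2 ^ (i + 1 + 1) = 2 * 2 ^ (i + 1) * s := by
      have : 2 ^ (i + 1 + 1) = 2 * 2 ^ (i + 1) := by ring
      omega
    have h3 := big hv hPOLY hRAT (i + 1) (2 * 2 ^ (i + 1) * s) b e3
      (Or.inr ⟨s, by omega, rfl⟩) h2 (tri_mono (by omega) hN)
    rw [e4] at h1
    rw [e5]
    refine (h1.trans h3).congr rfl ?_ ?_ rfl
    · have : 2 ^ (i + 1 + 1) = 2 * 2 ^ (i + 1) := by ring
      rw [this]
      have hpos := Nat.two_pow_pos i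
      have h5 : 2 ^ (i + 1) = 2 * 2 ^ i := by ring
      obtain ⟨r, hr⟩ : ∃ r, 2 ^ (i + 1) = r + 2 := ⟨2 ^ (i + 1) - 2, by omega⟩
      rw [hr, show 2 * (r + 2) - 2 = 2 * r + 2 by omega, show r + 2 - 2 = r by omega]
      ring
    · ring

/-- from `H Q` to `H (Q/2)`. -/
theorem half (b : ℕ) (h2 : 2 ≤ v) (hN : 2 ^ (b + 2) * (2 ^ (b + 2) + 3) / 2 ≤ v) :
    Reach (H v (2 ^ (b + 2))) (2 ^ (b + 1) * (v + 1) + (b + 2) * 2 ^ (b + 2) * v)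
      ((b + 2) * 2 ^ (b + 2) * v) (H v (2 ^ (b + 1))) := by
  have h1 := (top hv hPOLY hRAT (b + 2) (by omega) h2 hN).trans
    (mid hv hPOLY hRAT (b + 2) b (by omega) h2 hN)
  have e1 : 2 ^ (b + 2) = 2 * 2 ^ (b + 1) := by ring
  have e2 : 2 ^ (b + 1) = 2 * 2 ^ b := by ring
  have hpos := Nat.two_pow_pos b
  refine h1.congr rfl ?_ ?_ ?_
  · rw [e1]
    obtain ⟨r, hr⟩ : ∃ r, 2 ^ (b + 1) = r + 2 := ⟨2 ^ (b + 1) - 2, by omega⟩
    rw [hr]; simp only [Nat.add_sub_cancel]; ring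
  · ring
  · congr 1; omega

/-- from `H Q` to `H 2`. -/
theorem full (b : ℕ) (h2 : 2 ≤ v) (hN : 2 ^ (b + 1) * (2 ^ (b + 1) + 3) / 2 ≤ v) :
    Reach (H v (2 ^ (b + 1))) ((2 ^ (b + 1) - 2) * (v + 1) + b * 2 ^ (b + 2) * v)
      (b * 2 ^ (b + 2) * v) (H v 2) := by
  induction b with
  | zero => exact (Reach.refl _).congr rfl (by simp) (by simp) rfl
  | succ b ih =>
    have h1 := half hv hPOLY hRAT b h2 hN
    have hle : 2 ^ (b + 1) ≤ 2 ^ (b + 2) := Nat.pow_le_pow_right (by norm_num) (by omega)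
    have h3 := ih (tri_mono hle hN)
    have e1 : 2 ^ (b + 2) = 2 * 2 ^ (b + 1) := by ring
    have e2 : 2 ^ (b + 1) = 2 * 2 ^ b := by ring
    have e3 : 2 ^ (b + 3) = 4 * 2 ^ (b + 1) := by ring
    have hpos := Nat.two_pow_pos b
    refine (h1.trans h3).congr rfl ?_ ?_ rfl
    · show _ = (2 ^ (b + 2) - 2) * (v + 1) + (b + 1) * 2 ^ (b + 3) * v
      rw [e3, e1]
      obtain ⟨r, hr⟩ : ∃ r, 2 ^ (b + 1) = r + 2 := ⟨2 ^ (b + 1) - 2, by omega⟩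
      rw [hr, show 2 * (r + 2) - 2 = 2 * r + 2 by omega, show r + 2 - 2 = r by omega]
      ring
    · show _ = (b + 1) * 2 ^ (b + 3) * v
      rw [e3, e1]; ring

/-- from `H Q` to `x`. -/
theorem all (b : ℕ) (h2 : 2 ≤ v) (hN : 2 ^ (b + 1) * (2 ^ (b + 1) + 3) / 2 ≤ v) :
    Reach (H v (2 ^ (b + 1))) ((2 ^ (b + 1) - 2) * (v + 1) + b * 2 ^ (b + 2) * v + 6 * v + 1)
      (b * 2 ^ (b + 2) * v + 4 * v) x := by
  have h1 := full hv hPOLY hRAT b h2 hN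
  have hle : 2 ^ 1 ≤ 2 ^ (b + 1) := Nat.pow_le_pow_right (by norm_num) (by omega)
  have hN' := tri_mono hle hN
  have h3 := top0 hv hRAT 1 h2 hN'
  have h4 := big0 hv hPOLY hRAT 0 0 1 (by norm_num) (Or.inl rfl) h2 (tri_mono (by norm_num) hN')
  rw [H_zero_eq] at h4
  refine (h1.trans (h3.trans h4)).congr rfl ?_ ?_ ?_
  · norm_num; ring
  · norm_num; ring
  · simp

end

/-- The polynomial `1 + x^(v+1) + x^(2(v+1)) + ... + x^(k(v+1))`. -/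
noncomputable def Hp (v k : ℕ) : (ZMod 2)[X] := ∑ i ∈ Finset.range (k + 1), X ^ ((v + 1) * i)

theorem Hp_coe (v k : ℕ) : ((Hp v k : (ZMod 2)[X]) : A) = H v k := by
  have h1 : ((Hp v k : (ZMod 2)[X]) : A) = ∑ i ∈ Finset.range (k + 1), (x * x ^ v) ^ i := by
    unfold Hp
    have h4 := map_sum (Polynomial.coeToPowerSeries.ringHom (R := ZMod 2))
      (fun i => (X : (ZMod 2)[X]) ^ ((v + 1) * i)) (Finset.range (k + 1))
    rw [Polynomial.coeToPowerSeries.ringHom_apply] at h4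
    rw [h4]
    refine Finset.sum_congr rfl fun i _ => ?_
    rw [Polynomial.coeToPowerSeries.ringHom_apply]
    push_cast
    rw [← pow_succ', ← pow_mul]
    rfl
  rw [h1]
  have h2 := geom_sum_mul (x * x ^ v) (k + 1)
  have h3 := hD v
  have h5 : (1 + x * x ^ v) * ∑ i ∈ Finset.range (k + 1), (x * x ^ v) ^ i =
      1 + (x * x ^ v) ^ (k + 1) := by
    linear_combination h2 + (∑ i ∈ Finset.range (k + 1), (x * x ^ v) ^ i - 1) * two_eq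
  unfold H
  rw [← h5]
  linear_combination (-∑ i ∈ Finset.range (k + 1), (x * x ^ v) ^ i) * h3

theorem Hp_natDegree (v k : ℕ) : (Hp v k).natDegree = (v + 1) * k := by
  unfold Hp
  rw [Finset.sum_range_succ]
  rcases Nat.eq_zero_or_pos k with rfl | hk
  · simp
  rw [natDegree_add_eq_right_of_degree_lt]
  · simp
  · rw [degree_X_pow]
    refine (degree_sum_le _ _).trans_lt ?_
    rw [Finset.sup_lt_iff (by exact WithBot.bot_lt_coe _)]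
    intro i hi
    rw [degree_X_pow]
    have : (v + 1) * i < (v + 1) * k := Nat.mul_lt_mul_of_pos_left (Finset.mem_range.1 hi) (by omega)
    exact_mod_cast this

theorem Hp_ne (v k : ℕ) : Hp v k ≠ 0 := by
  intro h
  have h1 : (Hp v k).coeff 0 = 1 := by
    unfold Hp
    rw [coeff_zero_eq_eval_zero, eval_finsetSum, Finset.sum_range_succ']
    simp
  rw [h] at h1
  simp at h1

/-- The exact stopping time. -/
theorem stop_Hp (j a b : ℕ) (hab : 2 * (b + 1) + 1 ≤ a) :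
    stop (X ^ j * Hp (2 ^ a) (2 ^ (b + 1))) =
      j + (2 ^ a + 1) * 2 ^ (b + 1) + 2 * (2 ^ a * (b * 2 ^ (b + 2) + 4)) := by
  have hv := y_pow a
  have h2 : 2 ≤ 2 ^ a := by
    have : 2 ^ 1 ≤ 2 ^ a := Nat.pow_le_pow_right (by norm_num) (by omega)
    simpa using this
  have hN : 2 ^ (b + 1) * (2 ^ (b + 1) + 3) / 2 ≤ 2 ^ a := by
    have h3 : 2 ^ (2 * (b + 1) + 1) ≤ 2 ^ a := Nat.pow_le_pow_right (by norm_num) hab
    have h4 : 2 ^ (2 * (b + 1) + 1) = 2 * (2 ^ (b + 1) * 2 ^ (b + 1)) := by ring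
    have h5 := Nat.two_pow_pos (b + 1)
    refine le_trans ?_ h3
    rw [h4]
    refine (Nat.div_le_iff_le_mul_add_pred (by norm_num)).2 ?_
    nlinarith
  have h1 := all hv Pool.Agent.N713.PC.t_POLY Pool.Agent.N690.PC.t_RAT b h2 hN
  have h3 := (reach_pow j (H (2 ^ a) (2 ^ (b + 1)))).trans h1
  have h4 := Pool.Agent.N879.PC.t_BRIDGE (X ^ j * Hp (2 ^ a) (2 ^ (b + 1))) _ _
    (mul_ne_zero (pow_ne_zero _ X_ne_zero) (Hp_ne _ _)) (h3.congr (by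
      push_cast
      rw [Hp_coe]
      rfl) rfl rfl rfl)
  rw [h4]
  have hle : 2 ^ 1 ≤ 2 ^ (b + 1) := Nat.pow_le_pow_right (by norm_num) (by omega)
  obtain ⟨r, hr⟩ : ∃ r, 2 ^ (b + 1) = r + 2 := ⟨2 ^ (b + 1) - 2, by omega⟩
  rw [hr]; simp only [Nat.add_sub_cancel]; ring

end Pool.Agent.N158.PC
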