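import Pool.Agent.N158.PC.Main

/-!
The trajectory: the cascade and the whole chain.
-/

namespace Pool.Agent.N158.PC

open Polynomial

section
variable {R : Type*} [CommRing R] (hc : CharP R 2)
include hc

/-- `x = x`, `y = 1 + x`, `yi = y ^ (-q)`, `xq = x ^ q`, `xk = x ^ kk`, `yk = y ^ (k+1)`. -/
theorem id_S (x xq xk yk yiq Xq XQ Uq Di : R) (hq : (1 + xq) * yiq = 1)
    (hyk : yk = (1 + x) * yiq * (1 + xk * xq * xq)) :
    (xk * xq * x + yk + xk * xq * (1 + Xq * Uq + XQ * Uq)) * Di =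
      ((1 + x) * yiq * (1 + xk * xq) + xk * xq * Xq * Uq) * Di + xk * xq * XQ * Uq * Di := by
  subst hyk
  linear_combination (norm := (ring_nf; reduce_mod_char!)) (1 + x) * xk * xq * Di * hq

end

section
variable {v : ℕ} (hv : y ^ v = 1 + x ^ v)
include hv

theorem cascade (hPOLY : T_POLY) (hRAT : T_RAT) (s : ℕ) (hs : 1 ≤ s) (j : ℕ) : ∀ c : ℕ,
    (2 ^ (c + j) + 2 * 2 ^ (c + j) * s) * (2 ^ (c + j) + 2 * 2 ^ (c + j) * s + 3) / 2 ≤ v →
    Reach (x * Psi v (2 ^ (c + j)) 0 (2 * 2 ^ (c + j) * s)) (2 * (2 ^ (c + j) - 2 ^ c) * v)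
      ((2 ^ (c + j) - 2 ^ c) * v)
      (x * Psi v (2 ^ c) (2 ^ (c + j) - 2 ^ c) (2 * 2 ^ (c + j) * s)) := by
  induction j with
  | zero =>
    intro c _
    refine (Reach.refl _).congr rfl ?_ ?_ ?_
    · simp
    · simp
    · simp
  | succ j ih =>
    intro c hN
    have e1 : c + (j + 1) = c + 1 + j := by ring
    rw [e1] at hN ⊢
    have h1 := ih (c + 1) hN
    have hle : 2 ^ (c + 1) ≤ 2 ^ (c + 1 + j) := Nat.pow_le_pow_right (by norm_num) (by omega)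
    have hc1 : 2 ^ (c + 1) = 2 * 2 ^ c := by ring
    have hpos := Nat.two_pow_pos c
    have hkk : 2 * 2 ^ (c + 1 + j) * s = 2 * 2 ^ c * (2 * (2 ^ j * s)) := by ring
    have hs' : 1 ≤ 2 ^ j * s := Nat.mul_pos (Nat.two_pow_pos j) hs
    have h2 := phase hv hPOLY hRAT c (2 ^ (c + 1 + j) - 2 ^ (c + 1)) (2 ^ j * s) hs' (by
      rw [← hkk, ← hc1, Nat.sub_add_cancel hle]
      exact hN)
    rw [← hkk, ← hc1] at h2
    refine (h1.trans h2).congr rfl ?_ ?_ ?_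
    · rw [hc1]
      obtain ⟨r, hr⟩ : ∃ r, 2 ^ (c + 1 + j) = 2 ^ (c + 1) + r := ⟨2 ^ (c + 1 + j) - 2 ^ (c + 1), by omega⟩
      have h3 : 2 ^ (c + 1 + j) - 2 * 2 ^ c = r := by omega
      have h4 : 2 ^ (c + 1 + j) - 2 ^ c = r + 2 ^ c := by omega
      rw [h3, h4]; ring
    · obtain ⟨r, hr⟩ : ∃ r, 2 ^ (c + 1 + j) = 2 ^ (c + 1) + r := ⟨2 ^ (c + 1 + j) - 2 ^ (c + 1), by omega⟩
      have h3 : 2 ^ (c + 1 + j) - 2 ^ (c + 1) = r := by omega
      have h4 : 2 ^ (c + 1 + j) - 2 ^ c = r + 2 ^ c := by omega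
      rw [h3, h4]; ring
    · congr 2
      omega

/-- The whole cascade. -/
theorem casc (hPOLY : T_POLY) (hRAT : T_RAT) (i kk b : ℕ) (hb : 2 ^ b = 2 * 2 ^ i + kk)
    (h : i = 0 ∨ ∃ s, 1 ≤ s ∧ kk = 2 * 2 ^ i * s)
    (hN : (2 ^ i + kk) * (2 ^ i + kk + 3) / 2 ≤ v) :
    Reach (x * Y v (2 ^ i + kk)) (2 * (2 ^ i - 1) * v) ((2 ^ i - 1) * v) (x ^ (2 ^ i) * H v kk) := by
  have hc := charA
  obtain ⟨q, hq⟩ : ∃ q, 2 ^ i = q + 1 := ⟨2 ^ i - 1, by have := Nat.two_pow_pos i; omega⟩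
  -- the pure part
  have h1 : Reach (x * Psi v (2 ^ i) 0 kk) (2 * (2 ^ i - 1) * v) ((2 ^ i - 1) * v)
      (x ^ (2 ^ i) * Di v) := by
    have h2 : Reach (x * Psi v (2 ^ i) 0 kk) (2 * (2 ^ i - 1) * v) ((2 ^ i - 1) * v)
        (x * Psi v (2 ^ 0) (2 ^ i - 2 ^ 0) kk) := by
      rcases h with rfl | ⟨s, hs, rfl⟩
      · refine (Reach.refl _).congr rfl (by simp) (by simp) (by simp)
      · have := cascade hv hPOLY hRAT s hs i 0 (by simpa using hN)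
        simpa using this
    refine h2.congr rfl rfl rfl ?_
    unfold Psi
    have h3 := hyi
    rw [pow_zero, show 2 ^ i - 1 = q by omega, hq]
    simp only [pow_one, Nat.sub_self, pow_zero, mul_one]
    linear_combination (norm := (ring_nf; reduce_mod_char!))
      x * x ^ q * (1 + x ^ kk * x) * Di v * h3
  -- the tail
  have h2 := h1.pert (x * x ^ (2 ^ i + kk) * (x ^ v) ^ (kk + 1) * (yi ^ v) ^ q * Di v)
  refine h2.congr ?_ rfl rfl ?_
  · -- initial state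
    have hU : (1 + x ^ v) ^ (2 ^ b) = 1 + x ^ v * (x ^ v) ^ (2 ^ b - 1) := by
      rw [U_pow, ← pow_succ', Nat.sub_add_cancel Nat.one_le_two_pow]
    have hUiq : (yi ^ v) ^ (2 ^ i) * (1 + x ^ v * (x ^ v) ^ q) = 1 := by
      rw [← pow_succ' (x ^ v) q, ← hq, ← U_pow, mul_comm]
      exact hUi v _ hv
    have hUq : (yi ^ v) ^ q = (1 + x ^ v) * (yi ^ v) ^ (2 ^ i) := by
      rw [hq]
      have h6 := hUi v 1 hv
      rw [pow_one, pow_one] at h6
      linear_combination (-(yi ^ v) ^ q) * h6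
    have hE := id_E0 charA (x ^ v) ((x ^ v) ^ q) ((x ^ v) ^ (2 ^ b - 1)) ((1 + x ^ v) ^ (2 ^ b))
      ((yi ^ v) ^ q) ((yi ^ v) ^ (2 ^ i)) hU hUiq hUq
    have hW' : W v (2 ^ i + kk) = 1 + (x ^ v) ^ q * (yi ^ v) ^ q +
        (x ^ v) ^ (2 ^ b - 1) * (yi ^ v) ^ q := by
      apply mul_left_cancel₀ (xv_ne v)
      rw [hW, ← hE]
      have h7 : (1 + x ^ v) ^ (2 ^ b) = (1 + x ^ v) ^ (2 ^ i + kk + 1) * (1 + x ^ v) ^ q := by
        rw [← pow_add]; congr 1; omega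
      have h8 := hUi v q hv
      rw [h7]
      linear_combination (-(1 + x ^ v) ^ (2 ^ i + kk + 1)) * h8
    have hyk : y ^ (2 ^ i + kk + 1) = (1 + x) * yi ^ (2 ^ i) * (1 + x ^ kk * x ^ (2 ^ i) * x ^ (2 ^ i)) := by
      have h9 : y ^ (2 ^ i + kk + 1) * y ^ (2 ^ i) = y * y ^ (2 ^ b) := by
        rw [← pow_add, ← pow_succ']; congr 1; omega
      have h10 : x ^ (2 ^ b) = x ^ kk * x ^ (2 ^ i) * x ^ (2 ^ i) := by
        rw [← pow_add, ← pow_add]; congr 1; omega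
      rw [y_pow b, h10] at h9
      have h11 := y_pow_yi (2 ^ i)
      have hy : y = 1 + x := rfl
      rw [← hy]
      linear_combination yi ^ (2 ^ i) * h9 - y ^ (2 ^ i + kk + 1) * h11
    have hS := id_S charA x (x ^ (2 ^ i)) (x ^ kk) (y ^ (2 ^ i + kk + 1)) (yi ^ (2 ^ i))
      ((x ^ v) ^ q) ((x ^ v) ^ (2 ^ b - 1)) ((yi ^ v) ^ q) (Di v)
      (by rw [← y_pow]; exact y_pow_yi _) hyk
    unfold Y Psi
    rw [hW', show 2 ^ i - 1 = q by omega]
    have h12 : x ^ (2 * q * v) = (x ^ v) ^ (2 * q) := by rw [← pow_mul]; congr 1; ring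
    have h13 : (x ^ v) ^ (2 ^ b - 1) = (x ^ v) ^ (2 * q) * (x ^ v) ^ (kk + 1) := by
      rw [← pow_add]; congr 1; omega
    have hy : y = 1 + x := rfl
    rw [h12, h13, pow_zero, zero_add]
    rw [h13, ← hy] at hS
    linear_combination (-x) * hS
  · -- final state
    rw [show 2 ^ i - 1 = q by omega]
    have h8 := hUi v q hv
    have h14 : y ^ (q * v) = (1 + x ^ v) ^ q := by rw [← hv, ← pow_mul]; congr 1; ring
    rw [h14]
    unfold H
    linear_combination (x * x ^ (2 ^ i + kk) * (x ^ v) ^ (kk + 1) * Di v) * h8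

omit hv in
theorem H_zero_eq : H v 0 = 1 := by
  unfold H
  have := hD v
  linear_combination this

end

end Pool.Agent.N158.PC
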