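import Pool.Agent.N158.PC.Stm

/-!
Identities in characteristic two used in the computation of the trajectories.
-/

namespace Pool.Agent.N158.PC

section
variable {R : Type*} [CommRing R] (hc : CharP R 2)
include hc

theorem id_A1 (x X Di δ : R) (hD : (1 + x * X) * Di = 1) :
    1 + X * (x * Di + δ) = Di + X * δ := by
  linear_combination (norm := (ring_nf; reduce_mod_char!)) hD

theorem id_A2 (x X Di δ : R) (hD : (1 + x * X) * Di = 1) :
    1 + (1 + X) * (x * Di + δ) = (1 + x) * Di + (1 + X) * δ := by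
  linear_combination (norm := (ring_nf; reduce_mod_char!)) hD

theorem id_B1 (x X Di δ : R) (hD : (1 + x * X) * Di = 1) :
    (1 + x) + X * (x * (1 + x) * Di + δ) = (1 + x) * Di + X * δ := by
  linear_combination (norm := (ring_nf; reduce_mod_char!)) (1 + x) * hD

theorem id_B2 (x X yi Di δ : R) (hD : (1 + x * X) * Di = 1) (hy : (1 + x) * yi = 1) :
    1 + yi * (1 + X) * (x * (1 + x) * Di + δ) = (1 + x) * Di + yi * (1 + X) * δ := by
  linear_combination (norm := (ring_nf; reduce_mod_char!)) hD + (1 + X) * x * Di * hy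

/-- `s k = g + X δ`. -/
theorem id_C1 (x X Di xk yk U W : R) (hD : (1 + x * X) * Di = 1) (hW : X * W = U + 1) :
    ((1 + x) + xk * yk) + X * ((x * (1 + x) + xk * yk * (W + x)) * Di)
      = (1 + x) * Di + xk * yk * U * Di := by
  linear_combination (norm := (ring_nf; reduce_mod_char!)) ((1 + x) + xk * yk) * hD +
    xk * yk * Di * hW

/-- one regular double step, first half. -/
theorem id_R1 (x X Di G : R) (hD : (1 + x * X) * Di = 1) :
    G + X * (x * G * Di) = G * Di := by
  linear_combination (norm := (ring_nf; reduce_mod_char!)) G * hD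

theorem id_R2 (x X Di G yd : R) (hD : (1 + x * X) * Di = 1) :
    (1 + yd * (x * G)) + X * (yd * x * (1 + x) * G * Di) = 1 + yd * (1 + X) * (x * G * Di) := by
  linear_combination (norm := (ring_nf; reduce_mod_char!)) yd * x * G * hD

theorem id_L1 (x X Di G S : R) (hD : (1 + x * X) * Di = 1) :
    G + X * (x * G * Di + S) = G * Di + X * S := by
  linear_combination (norm := (ring_nf; reduce_mod_char!)) G * hD

/-- last double step. `Xp = X ^ (p-1)`, `Up = U ^ (-p)`. -/
theorem id_L2 (x X Di G yd yp xk Xp Up : R) (hD : (1 + x * X) * Di = 1)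
    (hU : Up * (1 + X * Xp) = 1) :
    (1 + yd * (x * G + xk * yp)) +
      X * (yd * (x * G * (1 + x) * Di + yp * xk * Up * Di * ((1 + x) + Xp + x * X * Xp)))
      = 1 + yd * (1 + X) * (x * G * Di + yp * xk * Up * Di) := by
  linear_combination (norm := (ring_nf; reduce_mod_char!)) yd * x * G * hD +
    yd * yp * xk * ((1 + x * X) * Di * hU + hD)

/-- last double step: the result. `m1 = x ^ (q - 2p)`, `xp = x ^ p`, `yip = y ^ (-p)`,
`xk' = x ^ k'`, `Uq = U ^ (-(p-1))`. -/
theorem id_L3 (x X Di m1 xp yp yip xk' Xp Up Uq : R)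
    (hU : Up * (1 + X * Xp) = 1) (hUq : Uq = (1 + X) * Up) (hyp : yp = 1 + xp)
    (hyi : yp * yip = 1) :
    x * (xp * (m1 * (1 + x) * (yip * yip) * (1 + xk' * (xp * xp)))) * yp * Di +
      x * (m1 * xp * xp * xk') * Up * Di * ((1 + x) + Xp + x * X * Xp)
      = x * ((m1 * xp) * (1 + x) * yip * (1 + xk' * xp) + m1 * xp * xp * xk' * Xp * Uq) * Di := by
  subst hUq
  subst hyp
  linear_combination (norm := (ring_nf; reduce_mod_char!))
    x * xp * m1 * (1 + x) * yip * (1 + xk' * (xp * xp)) * Di * hyi +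
    x * m1 * xp * xp * xk' * (1 + x) * Di * hyi +
    x * m1 * xp * xp * xk' * (1 + x) * Di * hU

end

end Pool.Agent.N158.PC
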