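import Pool.Agent.N158.PC.Phase

/-!
The trajectory: the cascade and the whole chain.
-/

namespace Pool.Agent.N158.PC

open Polynomial

/-- The state at the beginning of a phase. `n = q - p`, `kk = Q - 2q`. -/
noncomputable def Psi (v p n kk : ℕ) : A :=
  (x ^ n * y * yi ^ p * (1 + x ^ kk * x ^ p) +
    x ^ (n + p + kk) * (x ^ v) ^ (p - 1) * (yi ^ v) ^ (p - 1)) * Di v

section
variable {v : ℕ} (hv : y ^ v = 1 + x ^ v)
include hv

/-- one regular double step for `G = x^m0 y G'`. -/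
theorem reg1 (hPOLY : T_POLY) (hRAT : T_RAT) (m0 e : ℕ) (he : 2 ≤ e) (G' : (ZMod 2)[X])
    (hm : G'.Monic) (hd : G'.natDegree = e)
    (h1 : G'.eval 1 = 1) (h0 : G'.coeff 0 = 1)
    (hN : (m0 + 1 + e) * (m0 + 1 + e + 3) / 2 ≤ v) :
    Reach (x ^ m0 * y * (G' : A)) v (v - (m0 + 1 + e)) 1 ∧
    Reach (x ^ m0 * y * (G' : A) * Di v) (2 * v) (v - 1) (x * (x ^ m0 * y * (G' : A)) * Di v) := by
  set P : (ZMod 2)[X] := X ^ m0 * (1 + X) * G' with hP
  have mP : P.Monic := ((monic_X_pow m0).mul (by simpa using monic_one_add_X_pow 1)).mul hm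
  have dP : P.natDegree = m0 + 1 + e := by
    have m1 : (1 + X : (ZMod 2)[X]).Monic := by simpa using monic_one_add_X_pow 1
    have d1 : (1 + X : (ZMod 2)[X]).natDegree = 1 := by simpa using natDegree_one_add_X_pow 1
    rw [hP, ((monic_X_pow m0).mul m1).natDegree_mul hm, (monic_X_pow m0).natDegree_mul m1, hd, d1,
      natDegree_X_pow]
  have cP : (P : A) = x ^ m0 * y * (G' : A) := by
    rw [hP]
    push_cast
    rfl
  have hA := hPOLY P mP.ne_zero v (by rw [dP]; exact hN)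
  rw [dP, cP] at hA
  have hle : m0 + 1 + e ≤ v := by
    refine le_trans ?_ hN
    rw [Nat.le_div_iff_mul_le (by norm_num)]
    nlinarith
  refine ⟨hA, regular hv (d := m0 + 1 + e) (by omega) hle _ hA ?_⟩
  refine (regB hRAT m0 e he G' hd h1 h0 v ?_).congr rfl rfl (by omega) rfl
  refine le_trans ?_ hN
  obtain ⟨m, rfl⟩ : ∃ m, e = m + 1 := ⟨e - 1, by omega⟩
  simp only [Nat.add_sub_cancel]
  have h2 : m * (m + 1 + 2) / 2 * 2 ≤ m * (m + 1 + 2) := Nat.div_mul_le_self _ _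
  rw [Nat.le_div_iff_mul_le (by norm_num)]
  nlinarith

/-- `j` regular double steps. -/
theorem reg_iter (hPOLY : T_POLY) (hRAT : T_RAT) (e : ℕ) (he : 2 ≤ e) (G' : (ZMod 2)[X])
    (hm : G'.Monic) (hd : G'.natDegree = e)
    (h1 : G'.eval 1 = 1) (h0 : G'.coeff 0 = 1) (j : ℕ) (m0 : ℕ)
    (hN : (m0 + j + e) * (m0 + j + e + 3) / 2 ≤ v) :
    Reach (x ^ m0 * y * (G' : A) * Di v) (2 * j * v) (j * (v - 1))
      (x ^ (m0 + j) * y * (G' : A) * Di v) := by
  induction j generalizing m0 with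
  | zero => simpa using Reach.refl (x ^ m0 * y * (G' : A) * Di v)
  | succ j ih =>
    have ha := (reg1 hv hPOLY hRAT m0 e he G' hm hd h1 h0 (tri_mono (by omega) hN)).2
    have hb := ih (m0 + 1) (by rw [show m0 + 1 + j + e = m0 + (j + 1) + e by ring]; exact hN)
    refine (ha.trans (hb.congr (f' := x * (x ^ m0 * y * (G' : A)) * Di v) (by ring) rfl rfl
      rfl)).congr rfl (by ring) (by ring) (by rw [show m0 + 1 + j = m0 + (j + 1) by ring])

/-- One phase. -/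
theorem phase (hPOLY : T_POLY) (hRAT : T_RAT) (c n s : ℕ) (hs : 1 ≤ s)
    (hN : (n + 2 * 2 ^ c + 2 * 2 ^ c * (2 * s)) * (n + 2 * 2 ^ c + 2 * 2 ^ c * (2 * s) + 3) / 2
      ≤ v) :
    Reach (x * Psi v (2 * 2 ^ c) n (2 * 2 ^ c * (2 * s))) (2 * 2 ^ c * v) (2 ^ c * v)
      (x * Psi v (2 ^ c) (n + 2 ^ c) (2 * 2 ^ c * (2 * s))) := by
  obtain ⟨p', hp'⟩ : ∃ p', 2 ^ c = p' + 1 := ⟨2 ^ c - 1, by have := Nat.two_pow_pos c; omega⟩
  set e := 2 * 2 ^ c * (2 * s) with he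
  have hpos := Nat.two_pow_pos c
  have he2 : 2 ≤ e := by rw [he]; nlinarith [Nat.mul_le_mul hpos hs]
  set G' := Gp (2 ^ c) (2 * s + 1) with hG'
  have hm : G'.Monic := Gp_monic _ _
  have hd : G'.natDegree = e := Gp_natDegree _ _
  have h1 : G'.eval 1 = 1 := Gp_eval_one _ _
  have h0 : G'.coeff 0 = 1 := Gp_coeff_zero _ _
  have hG : y ^ (2 * 2 ^ c) * (G' : A) = 1 + x ^ e * x ^ (2 * 2 ^ c) := by
    rw [hG', Gp_mul, ← pow_add, he]
    congr 2
  have hG2 : (G' : A) = yi ^ (2 * 2 ^ c) * (1 + x ^ e * x ^ (2 * 2 ^ c)) := by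
    rw [← hG]
    linear_combination (-(G' : A)) * y_pow_yi (2 * 2 ^ c)
  have hv2 : 1 ≤ v := by
    refine le_trans ?_ hN
    rw [Nat.le_div_iff_mul_le (by norm_num)]
    nlinarith
  -- regular part
  have r1 := reg_iter hv hPOLY hRAT e he2 G' hm hd h1 h0 p' (n + 1)
    (tri_mono (by omega) hN)
  have r2 := r1.pert (x * x ^ (n + 2 * 2 ^ c + e) * x ^ v * (yi ^ v) ^ (2 * p' + 1) * Di v)
  -- last double step
  have hA := (reg1 hv hPOLY hRAT (n + 1 + p') e he2 G' hm hd h1 h0 (tri_mono (by omega) hN)).1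
  have hU1 : (1 + x ^ v) ^ (2 ^ c) = 1 + x ^ v * (x ^ v) ^ p' := by
    rw [U_pow, hp', pow_succ]
    ring
  have hU2 := hUi v (2 ^ c) hv
  have hU3 : (yi ^ v) ^ (2 ^ c) * (1 + x ^ v * (x ^ v) ^ p') = 1 := by
    rw [← hU1, mul_comm]; exact hU2
  have hB : Reach (1 + yi ^ (n + 1 + p' + 1 + e) * (x * (x ^ (n + 1 + p') * y * (G' : A)) +
      x ^ (n + 2 * 2 ^ c + e + 1) * yi ^ p')) v (n + 1 + p' + 1 + e + p') 0 := by
    refine hRAT (n + 1 + p' + 1 + e + p') (by omega)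
      (((1 + X) ^ (n + 1 + p' + 1 + e + p') + (X ^ (n + 1 + p' + 1) * (1 + X) ^ (p' + 1) * G' +
        X ^ (n + 2 * 2 ^ c + e + 1)))) ?_ ?_ _ ?_ v (tri_mono (by omega) hN)
    · refine (natDegree_add_le _ _).trans ?_
      rw [natDegree_one_add_X_pow]
      refine max_le le_rfl ?_
      refine natDegree_add_monic (((monic_X_pow _).mul (monic_one_add_X_pow _)).mul hm)
        (monic_X_pow _) ?_ ?_
      · rw [((monic_X_pow _).mul (monic_one_add_X_pow _)).natDegree_mul hm,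
          (monic_X_pow _).natDegree_mul (monic_one_add_X_pow _), hd, natDegree_one_add_X_pow,
          natDegree_X_pow]
        omega
      · rw [natDegree_X_pow]; omega
    · have h2 : (1 + 1 : ZMod 2) = 0 := by decide
      simp [h2]
    · push_cast
      change _ = y ^ _ + (x ^ _ * y ^ _ * (G' : A) + x ^ _)
      have h3 := y_pow_yi (n + 1 + p' + 1 + e)
      have h4 := y_pow_yi p'
      linear_combination (y ^ p' * (x * (x ^ (n + 1 + p') * y * (G' : A)) +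
        x ^ (n + 2 * 2 ^ c + e + 1) * yi ^ p')) * h3 + x ^ (n + 2 * 2 ^ c + e + 1) * h4
  have hle : n + 1 + p' + 1 + e ≤ v := by
    refine le_trans ?_ hN
    rw [Nat.le_div_iff_mul_le (by norm_num)]
    nlinarith
  have r3 := last hv hle (x ^ (n + 1 + p') * y * (G' : A)) (x ^ (n + 2 * 2 ^ c + e + 1))
    ((yi ^ v) ^ (2 ^ c)) hU3 hA hB
  refine (r2.trans (r3.congr (f' := x ^ (n + 1 + p') * y * (G' : A) * Di v +
    y ^ (p' * (v - 1)) * (x * x ^ (n + 2 * 2 ^ c + e) * x ^ v * (yi ^ v) ^ (2 * p' + 1) * Di v))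
    ?_ rfl rfl rfl)).congr ?_ ?_ ?_ ?_
  · -- intermediate state
    have h3 : y ^ (p' * (v - 1)) = yi ^ p' * (1 + x ^ v) ^ p' := by
      rw [mul_comm p', pow_mul, ← mul_pow]
      congr 1
      have := y_pow_sub hv (d := 1) hv2
      simpa using this
    have h4 := hUi v p' hv
    rw [h3, hp']
    linear_combination (-(yi ^ p' * x ^ v * (yi ^ v) ^ (p' + 1) * Di v *
      x ^ (n + 2 * (p' + 1) + e + 1))) * h4
  · -- initial state
    unfold Psi
    rw [show 2 * 2 ^ c - 1 = 2 * p' + 1 by omega, hG2]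
    rw [show x ^ (2 * p' * v) = (x ^ v) ^ (2 * p') by rw [← pow_mul, mul_comm]]
    ring
  · rw [hp']; ring
  · rw [hp']
    obtain ⟨w, rfl⟩ : ∃ w, v = w + 1 := ⟨v - 1, by omega⟩
    simp only [Nat.add_sub_cancel]
    ring
  · -- final state
    unfold Psi
    have h5 := id_L3 charA x (x ^ v) (Di v) (x ^ n) (x ^ (2 ^ c)) (y ^ (2 ^ c)) (yi ^ (2 ^ c))
      (x ^ e) ((x ^ v) ^ p') ((yi ^ v) ^ (2 ^ c)) ((yi ^ v) ^ p') hU3 ?_ (y_pow c)
      (y_pow_yi (2 ^ c))
    · have hy : y = 1 + x := rfl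
      rw [← hy] at h5
      rw [hG2, show 2 ^ c - 1 = p' by omega]
      rw [← hp']
      refine Eq.trans ?_ (h5.trans ?_)
      · rw [hp']; ring
      · ring
    · rw [hp']
      have h6 := hUi v 1 hv
      rw [pow_one, pow_one] at h6
      linear_combination (-(yi ^ v) ^ p') * h6

end

end Pool.Agent.N158.PC
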