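import Pool.Agent.N158.PC.Casc

/-!
The trajectory: phases and the cascade.
-/

namespace Pool.Agent.N158.PC

open Polynomial

theorem tri_mono {m n v : ℕ} (h : m ≤ n) (hv : n * (n + 3) / 2 ≤ v) : m * (m + 3) / 2 ≤ v :=
  le_trans (Nat.div_le_div_right (Nat.mul_le_mul h (by omega))) hv

theorem one_add_X_eq : (1 + X : (ZMod 2)[X]) = X + C 1 := by rw [C_1, add_comm]

theorem monic_one_add_X_pow (n : ℕ) : ((1 + X : (ZMod 2)[X]) ^ n).Monic := by
  rw [one_add_X_eq]; exact (monic_X_add_C 1).pow _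

theorem natDegree_one_add_X_pow (n : ℕ) : ((1 + X : (ZMod 2)[X]) ^ n).natDegree = n := by
  rw [one_add_X_eq, natDegree_pow, natDegree_X_add_C, mul_one]

/-- sum of two monic polynomials of degree `n + 1` in characteristic two. -/
theorem natDegree_add_monic {P R : (ZMod 2)[X]} {n : ℕ} (hP : P.Monic) (hR : R.Monic)
    (dP : P.natDegree = n + 1) (dR : R.natDegree = n + 1) : (P + R).natDegree ≤ n := by
  have h3 : P + R = P - R := by rw [CharTwo.sub_eq_add]
  rw [h3]
  by_cases h0 : P - R = 0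
  · rw [h0]; simp
  · have h4 := degree_sub_lt_left (p := P) (q := R) ?_ hP.ne_zero ?_
    · have h5 : (P - R).natDegree < n + 1 := by
        have := (natDegree_lt_natDegree_iff h0).2 h4
        rwa [dP] at this
      omega
    · rw [degree_eq_natDegree hP.ne_zero, degree_eq_natDegree hR.ne_zero, dP, dR]
    · rw [hP.leadingCoeff, hR.leadingCoeff]

theorem regB (hRAT : T_RAT) (m0 e : ℕ) (he : 2 ≤ e) (G' : (ZMod 2)[X]) (hd : G'.natDegree = e)
    (h1 : G'.eval 1 = 1) (h0 : G'.coeff 0 = 1) (N : ℕ) (hN : m0 + 2 + (e - 1) * (e + 2) / 2 ≤ N) :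
    Reach (1 + yi ^ (m0 + 1 + e) * (x * (x ^ m0 * y * (G' : A)))) N (m0 + e) 0 := by
  obtain ⟨m, rfl⟩ : ∃ m, e = m + 1 := ⟨e - 1, by omega⟩
  simp only [Nat.add_sub_cancel] at hN
  set P : (ZMod 2)[X] := (1 + X) ^ m + G' with hP
  have hP0 : P.coeff 0 = 0 := by
    have : (1 + 1 : ZMod 2) = 0 := by decide
    rw [hP, coeff_add, h0, coeff_zero_eq_eval_zero]
    simp [this]
  have hPX : P = X * P.divX := by
    have := X_mul_divX_add P
    rw [hP0, C_0, add_zero] at this
    exact this.symm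
  have hPd : P.divX.natDegree ≤ m := by
    rw [natDegree_divX_eq_natDegree_tsub_one]
    have : P.natDegree ≤ m + 1 := by
      refine (natDegree_add_le _ _).trans ?_
      rw [natDegree_one_add_X_pow, hd]
      omega
    omega
  have hP1 : P.divX.eval 1 = 1 := by
    have e1 : P.eval 1 = 1 := by
      have : (1 + 1 : ZMod 2) = 0 := by decide
      rw [hP, eval_add, h1]
      have hm : m ≠ 0 := by omega
      simp [this, hm]
    have e2 := congrArg (eval 1) hPX
    rw [eval_mul, eval_X, one_mul] at e2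
    rw [← e2, e1]
  have hz : Reach (yi ^ m * (P.divX : A)) (N - (m0 + 1) - 1) m 0 := by
    refine hRAT m (by omega) P.divX hPd hP1 _ ?_ _ ?_
    · linear_combination (P.divX : A) * y_pow_yi m
    · have : m * (m + 1 + 2) = m * (m + 3) := by ring
      rw [this] at hN
      omega
  have hz2 := (reach_one_add (m0 + 1) (yi ^ (m0 + 1 + m) * (G' : A))).trans
    ((Reach.zero hz).congr (f' := 1 + y ^ (m0 + 1) * (yi ^ (m0 + 1 + m) * (G' : A))) ?_ rfl rfl rfl)
  · refine hz2.congr ?_ ?_ ?_ rfl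
    · have h3 := hyi
      linear_combination (-(x ^ (m0 + 1) * yi ^ (m0 + 1 + m) * (G' : A))) * h3
    · omega
    · omega
  · have h3 := y_pow_yi m
    have h4 := y_pow_yi (m0 + 1)
    have h5 : (P : A) = x * (P.divX : A) := by
      conv_lhs => rw [hPX]
      push_cast
      rfl
    have h6 : (P : A) = y ^ m + (G' : A) := by
      rw [hP]
      push_cast
      rfl
    rw [h6] at h5
    linear_combination (-yi ^ m) * h5 + h3 - (yi ^ m * (G' : A)) * h4

/-- The polynomial `((1 + x^t)/(1 + x))^(2p)`. -/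
noncomputable def Gp (p t : ℕ) : (ZMod 2)[X] := (∑ i ∈ Finset.range t, X ^ i) ^ (2 * p)

theorem geom_monic (t : ℕ) : (∑ i ∈ Finset.range (t + 1), (X : (ZMod 2)[X]) ^ i).Monic ∧
    (∑ i ∈ Finset.range (t + 1), (X : (ZMod 2)[X]) ^ i).natDegree = t := by
  have h0 : (∑ i ∈ Finset.range t, (X : (ZMod 2)[X]) ^ i).degree < t := by
    refine (degree_sum_le _ _).trans_lt ?_
    rw [Finset.sup_lt_iff (by exact WithBot.bot_lt_coe t)]
    intro i hi
    rw [degree_X_pow]
    exact_mod_cast Finset.mem_range.1 hi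
  constructor
  · rw [Finset.sum_range_succ, add_comm]
    refine Monic.add_of_left (monic_X_pow t) ?_
    rwa [degree_X_pow]
  · rw [Finset.sum_range_succ, natDegree_add_eq_right_of_degree_lt]
    · simp
    · rwa [degree_X_pow]

theorem Gp_natDegree (p t : ℕ) : (Gp p (t + 1)).natDegree = 2 * p * t := by
  unfold Gp
  rw [(geom_monic t).1.natDegree_pow, (geom_monic t).2]

theorem Gp_monic (p t : ℕ) : (Gp p (t + 1)).Monic := (geom_monic t).1.pow _

theorem Gp_eval_one (p s : ℕ) : (Gp p (2 * s + 1)).eval 1 = 1 := by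
  unfold Gp
  rw [eval_pow, eval_finsetSum]
  simp only [eval_pow, eval_X, one_pow, Finset.sum_const, Finset.card_range, nsmul_eq_mul, mul_one]
  have : ((2 * s + 1 : ℕ) : ZMod 2) = 1 := by
    push_cast
    have : (2 : ZMod 2) = 0 := by decide
    rw [this]; simp
  rw [this, one_pow]

theorem Gp_coeff_zero (p t : ℕ) : (Gp p (t + 1)).coeff 0 = 1 := by
  unfold Gp
  rw [coeff_zero_eq_eval_zero, eval_pow, eval_finsetSum]
  have : ∑ i ∈ Finset.range (t + 1), eval 0 ((X : (ZMod 2)[X]) ^ i) = 1 := by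
    rw [Finset.sum_range_succ']
    simp
  rw [this, one_pow]

/-- `(1+x)^(2p) G' = 1 + x^(2 p t)` for `p` a power of two. -/
theorem Gp_mul (c t : ℕ) : y ^ (2 * 2 ^ c) * ((Gp (2 ^ c) t : (ZMod 2)[X]) : A) =
    1 + x ^ (2 * 2 ^ c * t) := by
  have hc := charA
  have h1 : y * ∑ i ∈ Finset.range t, x ^ i = 1 + x ^ t := by
    have := geom_sum_mul x t
    unfold y
    linear_combination this + (∑ i ∈ Finset.range t, x ^ i - 1) * two_eq
  have h2 : ((Gp (2 ^ c) t : (ZMod 2)[X]) : A) = (∑ i ∈ Finset.range t, x ^ i) ^ (2 * 2 ^ c) := by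
    unfold Gp
    have h3 : (((∑ i ∈ Finset.range t, X ^ i : (ZMod 2)[X]) : (ZMod 2)[X]) : A) =
        ∑ i ∈ Finset.range t, x ^ i := by
      have h4 := map_sum (Polynomial.coeToPowerSeries.ringHom (R := ZMod 2))
        (fun i => (X : (ZMod 2)[X]) ^ i) (Finset.range t)
      rw [Polynomial.coeToPowerSeries.ringHom_apply] at h4
      rw [h4]
      refine Finset.sum_congr rfl fun i _ => ?_
      rw [Polynomial.coeToPowerSeries.ringHom_apply]
      push_cast
      rfl
    push_cast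
    rw [h3]
  rw [h2, ← mul_pow, h1, show 2 * 2 ^ c = 2 ^ (c + 1) by ring]
  have h : (1 + x ^ t : A) ^ (2 ^ (c + 1)) = 1 ^ (2 ^ (c + 1)) + (x ^ t) ^ (2 ^ (c + 1)) :=
    add_pow_char_pow (1 : A) (x ^ t) 2 (c + 1)
  rw [h, one_pow, ← pow_mul]
  congr 2
  ring

end Pool.Agent.N158.PC
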