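import Pool.Agent.N158.PC.Basic

/-!
Statements of the leaves of project PC (stopping times of the Collatz map on polynomials over
the field with two elements).
-/

namespace Pool.Agent.N158.PC

open Polynomial

/-- The Collatz map on polynomials over the field with two elements. -/
noncomputable def T (f : (ZMod 2)[X]) : (ZMod 2)[X] :=
  if f.coeff 0 = 1 then (X + 1) * f + 1 else f.divX

/-- The stopping time: the least `k` with `T^k f = 1`. -/
noncomputable def stop (f : (ZMod 2)[X]) : ℕ := sInf {k : ℕ | T^[k] f = 1}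

/-- Leaf POLY: a nonzero polynomial of degree `d` reaches `1`; exactly `d` steps divide by `x`. -/
def T_POLY : Prop := ∀ P : (ZMod 2)[X], P ≠ 0 → ∀ N : ℕ,
  P.natDegree * (P.natDegree + 3) / 2 ≤ N → Reach (P : A) N (N - P.natDegree) 1

/-- Leaf RAT: `P / (1+x)^m` with `deg P ≤ m` and `P(1) = 1` reaches `0` with `m` odd steps. -/
def T_RAT : Prop := ∀ m : ℕ, 1 ≤ m → ∀ P : (ZMod 2)[X], P.natDegree ≤ m → P.eval 1 = 1 →
  ∀ g : A, y ^ m * g = (P : A) → ∀ N : ℕ, m * (m + 3) / 2 ≤ N → Reach g N m 0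

/-- Leaf BRIDGE: from the relation to the stopping time. -/
def T_BRIDGE : Prop := ∀ (f : (ZMod 2)[X]) (N a : ℕ), f ≠ 0 → Reach (f : A) N a x →
  stop f = N + a + 1

/-- Leaf NUM: the choice of the parameter. -/
def T_NUM : Prop := ∀ n : ℕ, 18 ≤ n → ∃ b : ℕ, 1 ≤ b ∧ (2 ^ (2 * b + 1) + 1) * 2 ^ b ≤ n ∧
  (1 / 64 : ℝ) * n * Real.log n ≤ n + 2 * 2 ^ (2 * b + 1) * (2 ^ b * (2 * (b : ℝ) - 2) + 4)

end Pool.Agent.N158.PC
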